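import Mathlib
import Pool.Agent.helper85.CasselsEps

set_option autoImplicit false

namespace Pool.Agent.helper85.Old.SmallRelativeError

/-- For every `h ≥ 2` and `ε > 0`, for every sufficiently small `lam > 0` there is an asymptotic
basis `A` of order `h` whose `n`-th smallest element `a_n` satisfies
`|a_n - lam * n ^ h| ≤ ε * lam * n ^ (h - 1)` for all large `n`.
Here the `n`-th smallest element is `Nat.nth (· ∈ A) (n - 1)`. -/
theorem smallRelativeError :
    ∀ h : ℕ, 2 ≤ h → ∀ ε : ℝ, 0 < ε →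
      ∃ lam0 : ℝ, 0 < lam0 ∧ ∀ lam : ℝ, 0 < lam → lam ≤ lam0 →
        ∃ A : Set ℕ, A.Infinite ∧
          (∃ n0 : ℕ, ∀ n ≥ n0, ∃ f : Fin h → ℕ, (∀ i, f i ∈ A) ∧ ∑ i, f i = n) ∧
          (∀ᶠ n : ℕ in Filter.atTop,
            |(Nat.nth (· ∈ A) (n - 1) : ℝ) - lam * (n : ℝ) ^ h| ≤
              ε * lam * (n : ℝ) ^ (h - 1)) := by
  intro h hh ε hε
  obtain ⟨g, rfl⟩ : ∃ g, h = g + 2 := ⟨h - 2, by omega⟩
  have := Pool.Agent.helper85.CasselsEps.main g ε hε
  simpa using this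

end Pool.Agent.helper85.Old.SmallRelativeError
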